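import Pool.Agent.helper96.S5.SpecR

/-! Row s5:CPR: the events of processing are decidable. -/

set_option autoImplicit false

namespace S5

open PF

noncomputable section

open Classical

theorem CPR_imp {α : Type} [Primcodable α] {p q : α → Prop} (hp : ComputablePred p)
    (hq : ComputablePred q) : ComputablePred (fun a => p a → q a) :=
  (cp_or (cp_not hp) hq).of_eq (fun a => by tauto)

theorem CPR_iff {α : Type} [Primcodable α] {p q : α → Prop} (hp : ComputablePred p)
    (hq : ComputablePred q) : ComputablePred (fun a => p a ↔ q a) :=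
  (cp_and (CPR_imp hp hq) (CPR_imp hq hp)).of_eq (fun a => by tauto)

section

variable {B : BD} (hB : B.Cp) (hT : Computable fun x : ℕ × ℕ => B.th x.1 x.2)

include hT in
theorem CPR_th {α : Type} [Primcodable α] {f g : α → ℕ} (hf : Computable f) (hg : Computable g) :
    Computable fun a => B.th (f a) (g a) := by
  have h1 := hf.pair hg
  have h2 := hT.comp h1
  exact h2

include hT in
theorem CPR_th1 {α : Type} [Primcodable α] {f g : α → ℕ} (hf : Computable f) (hg : Computable g) :
    Computable fun a => (B.th (f a) (g a)).1 := Computable.fst.comp (CPR_th hT hf hg)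

include hT in
theorem CPR_th2 {α : Type} [Primcodable α] {f g : α → ℕ} (hf : Computable f) (hg : Computable g) :
    Computable fun a => (B.th (f a) (g a)).2 := Computable.snd.comp (CPR_th hT hf hg)

theorem CPR_ln {α : Type} [Primcodable α] {g : α → List ℕ} (hg : Computable g) :
    Computable fun a => (g a).length := Computable.list_length.comp hg

include hT in
theorem CPR_len {α : Type} [Primcodable α] {f g : α → ℕ} (hf : Computable f) (hg : Computable g) :
    Computable fun a => (B.th (f a) (g a)).1.length := CPR_ln (CPR_th1 hT hf hg)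

theorem CPR_en {α : Type} [Primcodable α] {g : α → List ℕ} {i : α → ℕ} (hg : Computable g)
    (hi : Computable i) : Computable fun a => ent (g a) (i a) :=
  ent_computable.comp (hg.pair hi)

include hT in
theorem CPR_ent {α : Type} [Primcodable α] {f g i : α → ℕ} (hf : Computable f)
    (hg : Computable g) (hi : Computable i) : Computable fun a => ent (B.th (f a) (g a)).1 (i a) :=
  CPR_en (CPR_th1 hT hf hg) hi

include hB in
theorem CPR_dc {α : Type} [Primcodable α] {i k t s : α → ℕ} (hi : Computable i)
    (hk : Computable k) (ht : Computable t) (hs : Computable s) :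
    Computable fun a => B.dc (i a) (k a) (t a) (s a) :=
  hB.dc.comp ((hi.pair hk).pair (ht.pair hs))

include hB hT in
theorem CPR_rd {α : Type} [Primcodable α] {k t s : α → ℕ} (hk : Computable k)
    (ht : Computable t) (hs : Computable s) : ComputablePred fun a => B.rd (k a) (t a) (s a) := by
  unfold BD.rd
  refine cp_and (cp_lt ht hs) (cp_ball (p := fun a i => ent (B.th (k a) (t a)).1 i ≠ 0 →
    B.dc i (k a) (t a) (s a) ≠ 0) ?_ (CPR_len hT hk ht))
  refine CPR_imp (cp_not (cp_eq ?_ (Computable.const 0))) (cp_not (cp_eq ?_ (Computable.const 0)))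
  · exact CPR_ent hT (hk.comp Computable.fst) (ht.comp Computable.fst) Computable.snd
  · exact CPR_dc hB Computable.snd (hk.comp Computable.fst) (ht.comp Computable.fst)
      (hs.comp Computable.fst)

theorem CPR_u1 {α : Type} [Primcodable α] {u : α → ℕ} (hu : Computable u) :
    Computable fun a => (u a).unpair.1 :=
  Computable.fst.comp (Primrec.unpair.to_comp.comp hu)

theorem CPR_u2 {α : Type} [Primcodable α] {u : α → ℕ} (hu : Computable u) :
    Computable fun a => (u a).unpair.2 :=
  Computable.snd.comp (Primrec.unpair.to_comp.comp hu)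

include hB hT in
theorem CPR_prc {α : Type} [Primcodable α] {k u : α → ℕ} (hk : Computable k)
    (hu : Computable u) : ComputablePred fun a => B.prc (k a) (u a) := by
  unfold BD.prc
  refine cp_and (CPR_rd hB hT hk (CPR_u2 hu) (CPR_u1 hu)) (cp_ball (p := fun a s' =>
    ¬ B.rd (k a) (u a).unpair.2 s') ?_ (CPR_u1 hu))
  exact cp_not (CPR_rd hB hT (hk.comp Computable.fst) ((CPR_u2 hu).comp Computable.fst)
    Computable.snd)

include hB hT in
theorem CPR_vl {α : Type} [Primcodable α] {k u i : α → ℕ} (hk : Computable k)
    (hu : Computable u) (hi : Computable i) : Computable fun a => B.vl (k a) (u a) (i a) := by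
  have h := cp_ite (P := fun a => ent (B.th (k a) (u a).unpair.2).1 (i a) ≠ 0)
    (cp_not (cp_eq (CPR_ent hT hk (CPR_u2 hu) hi) (Computable.const 0)))
    (CPR_dc hB hi hk (CPR_u2 hu) (CPR_u1 hu)) (Computable.const 0)
  refine h.of_eq fun a => ?_
  unfold BD.vl
  split_ifs <;> rfl

include hB hT in
theorem CPR_lbl {α : Type} [Primcodable α] {k u l : α → ℕ} {g : α → List ℕ} (hk : Computable k)
    (hu : Computable u) (hg : Computable g) (hl : Computable l) :
    ComputablePred fun a => B.lbl (k a) (u a) (g a) (l a) := by
  unfold BD.lbl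
  exact cp_and (CPR_prc hB hT hk hu) (cp_and
    (cp_eq (CPR_th2 hT hk (CPR_u2 hu)) hl)
    (cp_le (CPR_ln hg) (CPR_len hT hk (CPR_u2 hu))))

include hB hT in
theorem CPR_eqv {α : Type} [Primcodable α] {k u b : α → ℕ} {g : α → List ℕ} (hk : Computable k)
    (hu : Computable u) (hg : Computable g) (hb : Computable b) :
    ComputablePred fun a => ∀ i < b a, B.vl (k a) (u a) i = ent (g a) i :=
  cp_ball (p := fun a i => B.vl (k a) (u a) i = ent (g a) i)
    (cp_eq (CPR_vl hB hT (hk.comp Computable.fst) (hu.comp Computable.fst) Computable.snd)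
      (CPR_en (hg.comp Computable.fst) Computable.snd)) hb

include hB hT in
theorem CPR_fit {α : Type} [Primcodable α] {k u l : α → ℕ} {g : α → List ℕ} (hk : Computable k)
    (hu : Computable u) (hg : Computable g) (hl : Computable l) :
    ComputablePred fun a => B.fit (k a) (u a) (g a) (l a) :=
  cp_and (CPR_lbl hB hT hk hu hg hl)
    (CPR_eqv hB hT hk hu hg (CPR_ln hg))

include hB hT in
theorem CPR_big {α : Type} [Primcodable α] {k u l : α → ℕ} {g : α → List ℕ} (hk : Computable k)
    (hu : Computable u) (hg : Computable g) (hl : Computable l) :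
    ComputablePred fun a => B.big (k a) (u a) (g a) (l a) := by
  have hlen : Computable fun a => (g a).length := CPR_ln hg
  have hv : Computable fun x : α × ℕ => B.vl (k x.1) (u x.1) x.2 :=
    CPR_vl hB hT (hk.comp Computable.fst) (hu.comp Computable.fst) Computable.snd
  have he : Computable fun x : α × ℕ => ent (g x.1) x.2 :=
    CPR_en (hg.comp Computable.fst) Computable.snd
  refine cp_and (CPR_lbl hB hT hk hu hg hl) (cp_and ?_ ?_)
  · exact cp_ball (p := fun a i => (B.vl (k a) (u a) i = 0 ↔ ent (g a) i = 0))
      (CPR_iff (cp_eq hv (Computable.const 0)) (cp_eq he (Computable.const 0))) hlen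
  · exact cp_bex (p := fun a i => ent (g a) i < B.vl (k a) (u a) i ∧
      ∀ i' < i, B.vl (k a) (u a) i' = ent (g a) i')
      (cp_and (cp_lt he hv) (CPR_eqv hB hT (hk.comp Computable.fst) (hu.comp Computable.fst)
        (hg.comp Computable.fst) Computable.snd)) hlen

end

theorem CPR_row (hCTH : CTH_stmt) : CPR_stmt := by
  intro B hB hlam
  have hT := hCTH B hB hlam
  refine ⟨?_, ?_, ?_⟩
  · exact CPR_prc hB hT Computable.fst Computable.snd
  · exact CPR_fit hB hT (Computable.fst.comp Computable.fst) (Computable.snd.comp Computable.fst)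
      (Computable.fst.comp Computable.snd) (Computable.snd.comp Computable.snd)
  · exact CPR_big hB hT (Computable.fst.comp Computable.fst) (Computable.snd.comp Computable.fst)
      (Computable.fst.comp Computable.snd) (Computable.snd.comp Computable.snd)

end

end S5
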