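import Pool.Agent.helper96.S5.SpecL

/-! Row s5:NEG: if the fragment beginning with a universal block is decidable, so is the dual one. -/

set_option autoImplicit false

namespace S5

open PF

theorem NEG_sat (L : Type) [Lattice L] [BoundedOrder L] (q : List Bool) (φ : Fm) (e : List L) :
    Sat L (q.map not) (Fm.neg φ) e ↔ ¬ Sat L q φ e := by
  induction q generalizing e with
  | nil => exact Iff.rfl
  | cons b q ih =>
    cases b with
    | true =>
      change (∃ x : L, Sat L (q.map not) (Fm.neg φ) (x :: e)) ↔ ¬ ∀ x : L, Sat L q φ (x :: e)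
      rw [not_forall]
      exact exists_congr fun x => ih (x :: e)
    | false =>
      change (∀ x : L, Sat L (q.map not) (Fm.neg φ) (x :: e)) ↔ ¬ ∃ x : L, Sat L q φ (x :: e)
      rw [not_exists]
      exact forall_congr' fun x => ih (x :: e)

theorem NEG_pat (n : ℕ) (b : Bool) (q : List Bool) (h : Pat n b q) : Pat n (!b) (q.map not) := by
  induction n generalizing b q with
  | zero =>
    have : q = [] := h
    subst this
    exact (rfl : ([] : List Bool) = [])
  | succ n ih =>
    obtain ⟨k, q', rfl, h'⟩ := h
    refine ⟨k, q'.map not, ?_, ih _ _ h'⟩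
    rw [List.map_append, List.map_replicate]

theorem NEG_row : NEG_stmt := by
  rintro ⟨P, hP, h⟩
  refine ⟨fun x => ¬ P (x.1.map not, x.2 ++ [5]), ?_, ?_⟩
  · have h1 : Primrec fun x : List Bool × List ℕ => x.1.map not :=
      Primrec.list_map Primrec.fst (Primrec.not.comp Primrec.snd)
    have h2 : Primrec fun x : List Bool × List ℕ => x.2 ++ [5] :=
      Primrec.list_append.comp Primrec.snd (Primrec.const [5])
    have h3 : Computable fun x : List Bool × List ℕ => (x.1.map not, x.2 ++ [5]) :=
      (h1.pair h2).to_comp
    exact cp_not (cp_comp h3 hP)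
  · intro q φ hq hc
    have h1 := h (q.map not) (Fm.neg φ) (NEG_pat 5 false q hq) (by
      rw [List.length_map]
      exact hc)
    change ¬ P (q.map not, φ.str ++ [5]) ↔ _
    have h2 : (Fm.neg φ).str = φ.str ++ [5] := rfl
    rw [h2] at h1
    rw [h1, NEG_sat, not_not]

end S5
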